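import Pool.Agent.N876.FL.NR
import Pool.Agent.N876.UV.Crit

/-!
# Cyclic coverings of projective spaces branched along hyperplanes, and their products with arbitrary
varieties: definitions

The definitions of coverings, of the weights and of the condition `IsSmall` are those of the starting
hand-in `MP_81b968_ag.HyperplaneCoverings` of helper876; the definitions for varieties with a Galois
action on a Weil cohomology are adapted from there and from `N876.FL.Geo3`.
-/

set_option autoImplicit false

open Finset Polynomial CategoryTheory AlgebraicGeometry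

universe u

namespace Pool.Agent.U190.HC

open Pool.Agent.H914 Pool.Agent.H914.VarClass Pool.Agent.H914.VarClass.Obj
  Pool.Agent.H914.WeilCohomology Pool.Agent.H281R3.HT Pool.Agent.W552 Pool.Agent.TH125.Gal

/-- A cyclic covering `w ^ N = ∏ l_k (x) ^ a_k` of the projective space of dimension `n`, and a root of
unity `z`. -/
structure Covering (κ : Type) [Field κ] : Type where
  N : ℕ
  n : ℕ
  s : ℕ
  l : Fin s → Fin (n + 1) → κ
  a : Fin s → ℕ
  z : κ

/-- `z` has order `N ≥ 2`, the exponents are prime to `N` and their sum is divisible by `N`. -/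
structure Covering.IsAdmissible {κ : Type} [Field κ] (X : Covering κ) : Prop where
  two_le : 2 ≤ X.N
  root : IsPrimitiveRoot X.z X.N
  coprime : ∀ k, (X.a k).Coprime X.N
  dvd : X.N ∣ ∑ k, X.a k

/-- The value of the form `∏ l_k ^ a_k` at a vector with coordinates in `L`. -/
def Covering.value {κ : Type} [Field κ] (X : Covering κ) (L : Type) [Field L] [Algebra κ L]
    (x : Fin (X.n + 1) → L) : L :=
  ∏ k, (∑ t, algebraMap κ L (X.l k t) * x t) ^ X.a k

/-- The number of vectors over `L` where the form is not zero. -/
noncomputable def Covering.openCount {κ : Type} [Field κ] (X : Covering κ) (L : Type) [Field L]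
    [Algebra κ L] : ℕ :=
  Set.ncard {x : Fin (X.n + 1) → L | X.value L x ≠ 0}

/-- The number of vectors over `L` where the form is not zero and its power with the exponent
`(|L| - 1) / N` is `z ^ i`. -/
noncomputable def Covering.fixCount {κ : Type} [Field κ] (X : Covering κ) (L : Type) [Field L]
    [Fintype L] [Algebra κ L] (i : ℕ) : ℕ :=
  Set.ncard {x : Fin (X.n + 1) → L | X.value L x ≠ 0 ∧
    (X.value L x) ^ ((Fintype.card L - 1) / X.N) = algebraMap κ L X.z ^ i}

/-- `T` is the part without invariants of the cohomology of degree `n` of a smooth projective model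
of the covering, with the Frobenius `Φ` and the generator `g` of the covering group. The trace
of `Φ ^ [L : κ] g ^ i` is up to the sign the difference of the number of fixed points over the open
set `∏ l_k ≠ 0` of projective space (`N` points over each point where the form has the power residue
symbol `z ^ i`) and of the number of the points of this open set. -/
structure IsCyclicCovering {κ : Type} [Field κ] (X : Covering κ) {K T : Type} [Field K]
    [AddCommGroup T] [Module K T] (Φ g : Module.End K T) : Prop where
  commute : Commute Φ g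
  order : g ^ X.N = 1
  invariants : ∀ t, g t = t → t = 0
  lefschetz : ∀ (L : Type) [Field L] [Fintype L] [Algebra κ L] (i : ℕ),
    ((Fintype.card L : K) - 1) *
        ((-1) ^ X.n * LinearMap.trace K T (Φ ^ Module.finrank κ L * g ^ i)) =
      (X.N : K) * (X.fixCount L i : K) - (X.openCount L : K)

/-- The mean over `j, c j, …, c ^ (f - 1) j` of the sum of the fractional parts of `j a_k / N`. -/
def Covering.weight {κ : Type} [Field κ] (X : Covering κ) (c f j : ℕ) : ℚ :=
  (∑ k, ∑ t ∈ range f, (((j * X.a k * c ^ t) % X.N : ℕ) : ℚ)) / (f * X.N)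

/-- The condition on the exponents: for each nonempty finite set `I` of indices and all `j i` not
divisible by the degrees there is an `u` prime to `N` such that the sum over `i ∈ I` of the weights
of `u (j i)` plus `lam / 2` is less than the sum of the `n_i / 2 + 1`. -/
def IsSmall {κ : Type} [Field κ] {ι : Type} (X : ι → Covering κ) (c f N lam : ℕ) : Prop :=
  ∀ I : Finset ι, I.Nonempty → ∀ j : ι → ℕ, (∀ i ∈ I, ¬ (X i).N ∣ j i) →
    ∃ u : ℕ, u.Coprime N ∧
      ∑ i ∈ I, (X i).weight c f (u * j i) + (lam : ℚ) / 2 < ∑ i ∈ I, (((X i).n : ℚ) / 2 + 1)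

/-- The space `H` is generated by the subspace `P` (the classes of algebraic cycles) and a subspace `T`
which is stable under `Φ` (the Frobenius) and `g` (a generator of the covering group), `T` is the part
without invariants (`IsCyclicCovering`), and pure of weight `n`. The complex numbers enter by an
embedding `τ` of the coefficient field. -/
def IsCoveringCohomology {κ : Type} [Field κ] [Fintype κ] (C : Covering κ) {K H : Type} [Field K]
    [AddCommGroup H] [Module K H] (P : Submodule K H) (Φ g : Module.End K H) (τ : K →+* ℂ) : Prop :=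
  ∃ (T : Submodule K H) (hΦ : ∀ t ∈ T, Φ t ∈ T) (hg : ∀ t ∈ T, g t ∈ T), P ⊔ T = ⊤ ∧
    IsCyclicCovering C (Φ.restrict hΦ) (g.restrict hg) ∧
    ∀ α, Module.End.HasEigenvalue (Φ.restrict hΦ) α → ‖τ α‖ ^ 2 = (Fintype.card κ : ℝ) ^ C.n

/-- The images of the eigenvalues of `Φ` under the embedding `τ` of the coefficient field. -/
def eigenvalues {K H : Type} [Field K] [AddCommGroup H] [Module K H] (Φ : Module.End K H)
    (τ : K →+* ℂ) : Set ℂ :=
  {b | ∃ β : K, Φ.HasEigenvalue β ∧ τ β = b}

/-- The conditions on a set `B` of complex numbers: they are algebraic with `|b| ^ 2 = q ^ j`, and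
either `lam = 0` and the cyclotomic polynomial of order `N` is irreducible over the field generated
by `B`, or `B` is of level at most `lam`. -/
def IsGoodBase (q N lam : ℕ) (B : Set ℂ) : Prop :=
  (∀ b ∈ B, IsAlgebraic ℚ b ∧ ∃ j : ℕ, ‖b‖ ^ 2 = (q : ℝ) ^ j) ∧
    ((lam = 0 ∧ Irreducible (cyclotomic N (IntermediateField.adjoin ℚ B))) ∨
      ∀ b ∈ B, IsIntegral ℤ ((q : ℂ) ^ lam * b / starRingEnd ℂ b))

/-- The field `κ` has `c ^ f` elements, the coverings are admissible, `N` is a common multiple of
their degrees, and `IsSmall` holds. -/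
structure IsSmallSystem {κ : Type} [Field κ] [Fintype κ] {ι : Type} (C : ι → Covering κ)
    (c f N lam : ℕ) : Prop where
  card : Fintype.card κ = c ^ f
  admissible : ∀ i, (C i).IsAdmissible
  pos : 0 < N
  dvd : ∀ i, (C i).N ∣ N
  small : IsSmall C c f N lam

section geometry

variable {k : Type u} [Field k] {𝒱 : VarClass k} {ops : CycleOps 𝒱}
  {W : WeilCohomology.{u, 0} ops} {Γ : Type} [Group Γ]

/-- The action of the element `σ` on the cohomology of `A` as a linear map. -/
def frobenius (A : GVar W Γ) (σ : Γ) : Module.End W.K (W.H A.X) := (A.act σ).toLinearMap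

/-- The operation of an endomorphism of `X` on the cohomology. -/
def pullback {X : 𝒱.Obj} (g : X ⟶ X) : Module.End W.K (W.H X) := (W.map g).toLinearMap

/-- `A`, with the action of `σ` on the cohomology, is a model of the covering `C`: for an
automorphism `g` of `A` (a generator of the covering group) the cohomology is generated by the classes
of algebraic cycles and a part `T` which satisfies `IsCyclicCovering` and is pure of weight `n`. -/
def IsModel {κ : Type} [Field κ] [Fintype κ] (C : Covering κ) (A : GVar W Γ) (σ : Γ)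
    (τ : W.K →+* ℂ) : Prop :=
  ∃ g : A.X ⟶ A.X, IsCoveringCohomology C (algSpan W A.X) (frobenius A σ) (pullback g) τ

/-- `Z` and the `X i` are members of a class `G` of varieties with an action of the group `Γ` on the
cohomology with the properties of a Galois action, `G` is closed under products, the element `σ`
(the Frobenius) acts as `q = |κ|` on the Tate twist, the `X i` are models of the coverings `C i`,
the cohomology of the `X i` is not zero and the images under `τ` of the eigenvalues of `σ` on the
cohomology of `Z` satisfy `IsGoodBase`. -/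
structure IsCoveringSystem {κ : Type} [Field κ] [Fintype κ] {ι : Type} (C : ι → Covering κ)
    (N lam : ℕ) (χ : Γ →* W.Kˣ) (G : Set (GVar W Γ)) (X : ι → GVar W Γ) (Z : GVar W Γ) (σ : Γ)
    (τ : W.K →+* ℂ) : Prop where
  galois : GaloisClass χ G
  mem : ∀ i, X i ∈ G
  mem_base : Z ∈ G
  cyclotomic : ((χ σ : W.Kˣ) : W.K) = (Fintype.card κ : W.K)
  model : ∀ i, IsModel (C i) (X i) σ τ
  ne_zero : ∀ i, (1 : W.H (X i).X) ≠ 0
  base : IsGoodBase (Fintype.card κ) N lam (eigenvalues (frobenius Z σ) τ)

/-- The product `X i₁ × (X i₂ × (⋯ × Z))` with the sum of the pull-backs of the divisors `D i` and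
`E`. -/
noncomputable def productOf {ι : Type} (X : ι → GVar W Γ) (D : ∀ i, (X i).X.Cycles)
    (Z : Polarized 𝒱) : List ι → Polarized 𝒱
  | [] => Z
  | i :: L => (⟨(X i).X, D i⟩ : Polarized 𝒱).prod ops (productOf X D Z L)

theorem productOf_eq {ι : Type} (X : ι → GVar W Γ) (D : ∀ i, (X i).X.Cycles)
    (Z : Polarized 𝒱) (L : List ι) :
    productOf X D Z L = Pool.Agent.N876.FL.tow X D Z L := by
  induction L with
  | nil => rfl
  | cons i L ih => rw [productOf, Pool.Agent.N876.FL.tow, ih]

end geometry

section sys

variable {k : Type u} [Field k] {𝒱 : VarClass k} {ops : CycleOps 𝒱}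
  {W : WeilCohomology.{u, 0} ops} {Γ : Type} [Group Γ]

/-- The coverings satisfy the hypotheses of the theorems of `N876.FL.Geo3`. -/
theorem exists_sys (c : ℕ) [Fact c.Prime] (κ : Type) [Field κ] [Fintype κ] [CharP κ c] {ι : Type}
    (C : ι → Covering κ) (f N lam : ℕ) (hC : IsSmallSystem C c f N lam)
    {χ : Γ →* W.Kˣ} {G : Set (GVar W Γ)} {X : ι → GVar W Γ} {Z : GVar W Γ} {σ : Γ}
    {τ : W.K →+* ℂ} (h : IsCoveringSystem C N lam χ G X Z σ τ) :
    ∃ S : ι → Set W.K, Pool.Agent.N876.FL.Sys χ G X Z σ S := by
  obtain ⟨hf, hC, hN, hdN, hsmall⟩ := hC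
  obtain ⟨hG, hmem, hmemZ, hχ, hmodel, hone, hbase⟩ := h
  have hf0 : 0 < f := by
    rcases Nat.eq_zero_or_pos f with h | h
    · rw [h, pow_zero] at hf
      have := Fintype.one_lt_card (α := κ)
      omega
    · exact h
  choose g T' hσT hgT hT' hcov hpure using hmodel
  have hsmall' : ∀ I : Finset ι, I.Nonempty → Pool.Agent.N876.UV.SmallI c f N lam
      (fun i => (C i).N) (fun i => (C i).n) (fun i => (C i).s) (fun i => (C i).a) I := by
    intro I hI j hj
    obtain ⟨u, hu, hlt⟩ := hsmall I hI j hj
    refine ⟨u, hu, Pool.Agent.N876.UV.weight_conv' hf0 hN hdN I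
      (fun i => ∑ k, ∑ t ∈ range f, (u * j i * (C i).a k * c ^ t) % (C i).N) ?_⟩
    refine lt_of_le_of_lt (le_of_eq ?_) hlt
    congr 1
    refine sum_congr rfl fun i _ => ?_
    unfold Covering.weight
    push_cast
    rfl
  have hcov' : ∀ i, Pool.Agent.N876.TC.IsCov (C i).N (C i).l (C i).a (C i).z
      ((frobenius (X i) σ).restrict (hσT i)) ((pullback (g i)).restrict (hgT i)) :=
    fun i => ⟨(hcov i).commute, (hcov i).order, (hcov i).invariants,
      fun L _ _ _ t => (hcov i).lefschetz L t⟩
  have hres : ∀ SZ, Pool.Agent.N876.FL.OtherOK τ (Fintype.card κ) N lam SZ →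
      Pool.Agent.N876.FL.NoResF (Fintype.card κ : W.K)
        (fun i => {α | Module.End.HasEigenvalue
          ((frobenius (X i) σ).restrict (hσT i)) α}) SZ :=
    fun SZ hSZ => Pool.Agent.N876.FL.nores_cov hN (fun i => (hC i).two_le) hdN κ hf
      (fun i => (hC i).root) (fun i => (C i).l) (fun i => (C i).a) (fun i => (hC i).coprime) τ
      hcov' hsmall' hpure hSZ
  have himg : (τ '' {β | (Pool.Agent.N876.FL.op Z σ).HasEigenvalue β}) =
      eigenvalues (frobenius Z σ) τ := by
    ext b
    constructor
    · rintro ⟨β, hβ, rfl⟩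
      exact ⟨β, hβ, rfl⟩
    · rintro ⟨β, hβ, rfl⟩
      exact ⟨β, hβ, rfl⟩
  refine ⟨fun i => {α | Module.End.HasEigenvalue ((frobenius (X i) σ).restrict (hσT i)) α},
    { gal := hG, mem := hmem, memZ := hmemZ,
      cv := fun i => ⟨T' i, hσT i, hT' i, fun α hα => hα⟩
      res := ?_
      res1 := ?_
      one := hone }⟩
  · rw [hχ]
    refine hres _ ⟨?_, ?_⟩
    · intro β hβ
      exact hbase.1 _ ⟨β, hβ, rfl⟩
    · rcases hbase.2 with h | h
      · left
        rw [himg]
        exact h
      · right
        intro β hβ
        exact h _ ⟨β, hβ, rfl⟩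
  · rw [hχ]
    exact hres _ (Pool.Agent.N876.FL.otherOK_one τ _ _ _)

end sys

end Pool.Agent.U190.HC
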